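import Pool.Agent.Lib_helper15.KP.I2

/-! Block I of MP_3b4c52_gt, part 3: the closed system (generic spaces). -/

open scoped ContDiff Topology
open Metric Set

set_option maxSynthPendingDepth 3

noncomputable section

namespace Pool.Agent.KP.BI

variable {T N : Type*} [NormedAddCommGroup T] [NormedSpace ℝ T]
  [NormedAddCommGroup N] [NormedSpace ℝ N]

/-- `ζ ↦ X ↦ c (Q ζ (c X))` -/
def cQc (Q : T →L[ℝ] T →L[ℝ] N) (c : N →L[ℝ] T) : T →L[ℝ] N →L[ℝ] T :=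
  (ContinuousLinearMap.compL ℝ N N T c).comp
    (((ContinuousLinearMap.compL ℝ N T N).flip c).comp Q)

theorem cQc_apply (Q : T →L[ℝ] T →L[ℝ] N) (c : N →L[ℝ] T) (ζ : T) (X : N) :
    cQc Q c ζ X = c (Q ζ (c X)) := rfl

/-- the defect form -/
def defect (Q : T →L[ℝ] T →L[ℝ] N) (c : N →L[ℝ] T) (e : T →L[ℝ] N →L[ℝ] T)
    (e' : T →L[ℝ] T →L[ℝ] N →L[ℝ] T) : T →L[ℝ] T →L[ℝ] N →L[ℝ] T :=
  e' + ((ContinuousLinearMap.compL ℝ T (N →L[ℝ] T) (N →L[ℝ] T)).flip e).comp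
      ((ContinuousLinearMap.compL ℝ N T T).comp ((ContinuousLinearMap.compL ℝ T N T c).comp Q.flip))
    - (ContinuousLinearMap.compL ℝ T T (N →L[ℝ] T) e).comp
      ((ContinuousLinearMap.compL ℝ T N T c).comp Q.flip)
    + ((ContinuousLinearMap.compL ℝ T (N →L[ℝ] T) (N →L[ℝ] T)).flip e).comp
      ((ContinuousLinearMap.compL ℝ N N T).flip.comp
        (((ContinuousLinearMap.compL ℝ N T N).flip c).comp Q))

theorem defect_apply (Q : T →L[ℝ] T →L[ℝ] N) (c : N →L[ℝ] T) (e : T →L[ℝ] N →L[ℝ] T)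
    (e' : T →L[ℝ] T →L[ℝ] N →L[ℝ] T) (ζ η : T) (X : N) :
    defect Q c e e' ζ η X =
      e' ζ η X + c (Q (e η X) ζ) - e (c (Q η ζ)) X + e η (Q ζ (c X)) := rfl

theorem line_deriv {G : Type*} [NormedAddCommGroup G] [NormedSpace ℝ G] {f : T → G} {x : T}
    (hf : DifferentiableAt ℝ f x) (θ : T) :
    HasDerivAt (fun t : ℝ => f (x + t • θ)) (fderiv ℝ f x θ) 0 :=
  hf.hasFDerivAt.hasLineDerivAt θ

theorem line_mem {U : Set T} (hU : IsOpen U) {x : T} (hx : x ∈ U) (θ : T) :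
    ∀ᶠ t : ℝ in 𝓝 0, x + t • θ ∈ U := by
  have h : ContinuousAt (fun t : ℝ => x + t • θ) 0 := by fun_prop
  have h2 : U ∈ 𝓝 (x + (0 : ℝ) • θ) := by
    rw [zero_smul, add_zero]
    exact hU.mem_nhds hx
  exact h.eventually h2

theorem deriv_term {q : ℝ → (T →L[ℝ] T →L[ℝ] N)} {q' : T →L[ℝ] T →L[ℝ] N}
    {k : ℝ → (N →L[ℝ] T)} {k' : N →L[ℝ] T} (hq : HasDerivAt q q' 0) (hk : HasDerivAt k k' 0)
    (ξ η ζ : T) :
    HasDerivAt (fun t => q t ξ (k t (q t η ζ)))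
      (q' ξ (k 0 (q 0 η ζ)) + q 0 ξ (k' (q 0 η ζ) + k 0 (q' η ζ))) 0 := by
  have h1 : HasDerivAt (fun t => q t η ζ) (q' η ζ) 0 := by
    simpa using (hq.clm_apply (hasDerivAt_const 0 η)).clm_apply (hasDerivAt_const 0 ζ)
  have h2 := hk.clm_apply h1
  have h3 : HasDerivAt (fun t => q t ξ) (q' ξ) 0 := by
    simpa using hq.clm_apply (hasDerivAt_const 0 ξ)
  exact h3.clm_apply h2

variable {U : Set T} {Q : T → (T →L[ℝ] T →L[ℝ] N)} {c : T → (N →L[ℝ] T)}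

/-- the fourth order data -/
def eMap (Q : T → (T →L[ℝ] T →L[ℝ] N)) (c : T → (N →L[ℝ] T)) (x : T) : T →L[ℝ] N →L[ℝ] T :=
  fderiv ℝ c x + cQc (Q x) (c x)

theorem eMap_apply (x ζ : T) (X : N) :
    eMap Q c x ζ X = fderiv ℝ c x ζ X + c x (Q x ζ (c x X)) := rfl

theorem contDiffAt_eMap {x : T} (hQ : ContDiffAt ℝ ∞ Q x) (hc : ContDiffAt ℝ ∞ c x) :
    ContDiffAt ℝ ∞ (eMap Q c) x := by
  have h1 : ContDiffAt ℝ ∞ (fderiv ℝ c) x := hc.fderiv_right (m := ∞) (by simp)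
  refine h1.add ?_
  have h2 : ContDiffAt ℝ ∞ (fun y => ContinuousLinearMap.compL ℝ N N T (c y)) x :=
    (ContinuousLinearMap.contDiff (ContinuousLinearMap.compL ℝ N N T)).contDiffAt.comp x hc
  have h3 : ContDiffAt ℝ ∞ (fun y => (ContinuousLinearMap.compL ℝ N T N).flip (c y)) x :=
    (ContinuousLinearMap.contDiff (ContinuousLinearMap.compL ℝ N T N).flip).contDiffAt.comp x hc
  exact h2.clm_comp (h3.clm_comp hQ)

theorem sym_second {G : Type*} [NormedAddCommGroup G] [NormedSpace ℝ G] {f : T → G} {x : T}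
    (hf : ContDiffAt ℝ ∞ f x) (v w : T) :
    fderiv ℝ (fderiv ℝ f) x v w = fderiv ℝ (fderiv ℝ f) x w v := by
  have h2 : (2 : ℕ∞ω) ≤ ∞ := WithTop.coe_le_coe.2 (le_top : (2 : ℕ∞) ≤ ⊤)
  have h : IsSymmSndFDerivAt ℝ f x := hf.isSymmSndFDerivAt (by simpa using h2)
  exact h v w

theorem sym4_eMap (hU : IsOpen U) (hQ : ContDiffOn ℝ ∞ Q U) (hc : ContDiffOn ℝ ∞ c U)
    (hs : ∀ x ∈ U, ∀ ξ η, Q x ξ η = Q x η ξ)
    (hC : ∀ x ∈ U, ∀ ζ ξ η, fderiv ℝ Q x ζ ξ η =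
      Q x ζ (c x (Q x ξ η)) + Q x ξ (c x (Q x η ζ)) + Q x η (c x (Q x ζ ξ)))
    {x : T} (hx : x ∈ U) (θ ξ η ζ : T) :
    S4 (Q x) (fun a X => eMap Q c x a X) θ ξ η ζ = S4 (Q x) (fun a X => eMap Q c x a X) ξ θ η ζ := by
  have hQx : ContDiffAt ℝ ∞ Q x := hQ.contDiffAt (hU.mem_nhds hx)
  have hcx : ContDiffAt ℝ ∞ c x := hc.contDiffAt (hU.mem_nhds hx)
  have hQd : DifferentiableAt ℝ Q x := hQx.differentiableAt (by simp)
  have hcd : DifferentiableAt ℝ c x := hcx.differentiableAt (by simp)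
  have hQ1 : ContDiffAt ℝ ∞ (fderiv ℝ Q) x := hQx.fderiv_right (m := ∞) (by simp)
  have hQ1d : DifferentiableAt ℝ (fderiv ℝ Q) x := hQ1.differentiableAt (by simp)
  -- the derivative of the identity `hC`
  have main : ∀ θ ξ η ζ, fderiv ℝ (fderiv ℝ Q) x θ ξ η ζ =
      A3 (Q x) (c x) (fderiv ℝ Q x θ) (fderiv ℝ c x θ) ξ η ζ
      + A3 (Q x) (c x) (fderiv ℝ Q x θ) (fderiv ℝ c x θ) η ζ ξ
      + A3 (Q x) (c x) (fderiv ℝ Q x θ) (fderiv ℝ c x θ) ζ ξ η := by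
    intro θ ξ η ζ
    have h1 : HasDerivAt (fun t : ℝ => fderiv ℝ Q (x + t • θ) ξ η ζ)
        (fderiv ℝ (fderiv ℝ Q) x θ ξ η ζ) 0 := by
      have := line_deriv hQ1d θ
      simpa using ((this.clm_apply (hasDerivAt_const 0 ξ)).clm_apply
        (hasDerivAt_const 0 η)).clm_apply (hasDerivAt_const 0 ζ)
    have hq := line_deriv hQd θ
    have hk := line_deriv hcd θ
    have h2 := ((deriv_term hq hk ξ η ζ).add (deriv_term hq hk η ζ ξ)).add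
      (deriv_term hq hk ζ ξ η)
    simp only [zero_smul, add_zero] at h2
    refine h1.unique (h2.congr_of_eventuallyEq ?_)
    filter_upwards [line_mem hU hx θ] with t ht
    exact hC _ ht ξ η ζ
  refine alg4 (Q x) (c x) (fun θ => fderiv ℝ Q x θ) (fun θ => fderiv ℝ c x θ)
    (fun a X => eMap Q c x a X) (hs x hx) (hC x hx) (fun θ X => rfl) ?_ θ ξ η ζ
  intro θ ξ η ζ
  rw [← main θ ξ η ζ, ← main ξ θ η ζ, sym_second hQx θ ξ]

theorem defect_symm (hU : IsOpen U) (hQ : ContDiffOn ℝ ∞ Q U) (hc : ContDiffOn ℝ ∞ c U)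
    (hs : ∀ x ∈ U, ∀ ξ η, Q x ξ η = Q x η ξ)
    (hC : ∀ x ∈ U, ∀ ζ ξ η, fderiv ℝ Q x ζ ξ η =
      Q x ζ (c x (Q x ξ η)) + Q x ξ (c x (Q x η ζ)) + Q x η (c x (Q x ζ ξ)))
    {x : T} (hx : x ∈ U) (ζ η : T) (X : N) :
    defect (Q x) (c x) (eMap Q c x) (fderiv ℝ (eMap Q c) x) ζ η X =
      defect (Q x) (c x) (eMap Q c x) (fderiv ℝ (eMap Q c) x) η ζ X := by
  have hQx : ContDiffAt ℝ ∞ Q x := hQ.contDiffAt (hU.mem_nhds hx)
  have hcx : ContDiffAt ℝ ∞ c x := hc.contDiffAt (hU.mem_nhds hx)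
  have hQd : DifferentiableAt ℝ Q x := hQx.differentiableAt (by simp)
  have hcd : DifferentiableAt ℝ c x := hcx.differentiableAt (by simp)
  have hc1 : ContDiffAt ℝ ∞ (fderiv ℝ c) x := hcx.fderiv_right (m := ∞) (by simp)
  have hc1d : DifferentiableAt ℝ (fderiv ℝ c) x := hc1.differentiableAt (by simp)
  have hed : DifferentiableAt ℝ (eMap Q c) x :=
    (contDiffAt_eMap hQx hcx).differentiableAt (by simp)
  have main : ∀ ζ η X, fderiv ℝ (fderiv ℝ c) x ζ η X =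
      fderiv ℝ (eMap Q c) x ζ η X - (fderiv ℝ c x ζ (Q x η (c x X)) +
        c x (fderiv ℝ Q x ζ η (c x X) + Q x η (fderiv ℝ c x ζ X))) := by
    intro ζ η X
    have h1 : HasDerivAt (fun t : ℝ => fderiv ℝ c (x + t • ζ) η X)
        (fderiv ℝ (fderiv ℝ c) x ζ η X) 0 := by
      have := line_deriv hc1d ζ
      simpa using (this.clm_apply (hasDerivAt_const 0 η)).clm_apply (hasDerivAt_const 0 X)
    have h2 : HasDerivAt (fun t : ℝ => eMap Q c (x + t • ζ) η X)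
        (fderiv ℝ (eMap Q c) x ζ η X) 0 := by
      have := line_deriv hed ζ
      simpa using (this.clm_apply (hasDerivAt_const 0 η)).clm_apply (hasDerivAt_const 0 X)
    have hq := line_deriv hQd ζ
    have hk := line_deriv hcd ζ
    have h3 : HasDerivAt (fun t : ℝ => c (x + t • ζ) X) (fderiv ℝ c x ζ X) 0 := by
      simpa using hk.clm_apply (hasDerivAt_const 0 X)
    have h4 : HasDerivAt (fun t : ℝ => Q (x + t • ζ) η) (fderiv ℝ Q x ζ η) 0 := by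
      simpa using hq.clm_apply (hasDerivAt_const 0 η)
    have h5 := hk.clm_apply (h4.clm_apply h3)
    simp only [zero_smul, add_zero] at h5
    refine h1.unique ((h2.sub h5).congr_of_eventuallyEq ?_)
    filter_upwards with t
    simp only [eMap_apply, Pi.sub_apply]
    abel
  refine alg5 (Q x) (c x) (fun θ => fderiv ℝ Q x θ) (fun θ => fderiv ℝ c x θ)
    (eMap Q c x) (fun ζ η X => fderiv ℝ (eMap Q c) x ζ η X) (hs x hx) (hC x hx) (fun θ X => rfl)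
    (fun ζ η X => defect (Q x) (c x) (eMap Q c x) (fderiv ℝ (eMap Q c) x) ζ η X)
    (fun ζ η X => rfl) ζ η X ?_
  rw [← main, ← main, sym_second hcx ζ η]

theorem defect_sym4 (hU : IsOpen U) (hQ : ContDiffOn ℝ ∞ Q U) (hc : ContDiffOn ℝ ∞ c U)
    (hs : ∀ x ∈ U, ∀ ξ η, Q x ξ η = Q x η ξ)
    (hC : ∀ x ∈ U, ∀ ζ ξ η, fderiv ℝ Q x ζ ξ η =
      Q x ζ (c x (Q x ξ η)) + Q x ξ (c x (Q x η ζ)) + Q x η (c x (Q x ζ ξ)))
    {x : T} (hx : x ∈ U) (κ θ ξ η ζ : T) :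
    S4 (Q x) (fun a X => defect (Q x) (c x) (eMap Q c x) (fderiv ℝ (eMap Q c) x) κ a X) θ ξ η ζ =
    S4 (Q x) (fun a X => defect (Q x) (c x) (eMap Q c x) (fderiv ℝ (eMap Q c) x) κ a X) ξ θ η ζ := by
  have hQx : ContDiffAt ℝ ∞ Q x := hQ.contDiffAt (hU.mem_nhds hx)
  have hcx : ContDiffAt ℝ ∞ c x := hc.contDiffAt (hU.mem_nhds hx)
  have hQd : DifferentiableAt ℝ Q x := hQx.differentiableAt (by simp)
  have hed : DifferentiableAt ℝ (eMap Q c) x :=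
    (contDiffAt_eMap hQx hcx).differentiableAt (by simp)
  have hq := line_deriv hQd κ
  have hek : ∀ a, HasDerivAt (fun t : ℝ => eMap Q c (x + t • κ) a)
      (fderiv ℝ (eMap Q c) x κ a) 0 := by
    intro a
    simpa using (line_deriv hed κ).clm_apply (hasDerivAt_const 0 a)
  have main : ∀ θ ξ η ζ, HasDerivAt
      (fun t : ℝ => S4 (Q (x + t • κ)) (fun a X => eMap Q c (x + t • κ) a X) θ ξ η ζ)
      ((fderiv ℝ Q x κ ξ (eMap Q c x θ (Q x η ζ)) + Q x ξ (fderiv ℝ (eMap Q c) x κ θ (Q x η ζ) +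
        eMap Q c x θ (fderiv ℝ Q x κ η ζ))) +
      (fderiv ℝ Q x κ η (eMap Q c x θ (Q x ζ ξ)) + Q x η (fderiv ℝ (eMap Q c) x κ θ (Q x ζ ξ) +
        eMap Q c x θ (fderiv ℝ Q x κ ζ ξ))) +
      (fderiv ℝ Q x κ ζ (eMap Q c x θ (Q x ξ η)) + Q x ζ (fderiv ℝ (eMap Q c) x κ θ (Q x ξ η) +
        eMap Q c x θ (fderiv ℝ Q x κ ξ η)))) 0 := by
    intro θ ξ η ζ
    have h2 := ((deriv_term hq (hek θ) ξ η ζ).add (deriv_term hq (hek θ) η ζ ξ)).add
      (deriv_term hq (hek θ) ζ ξ η)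
    simp only [zero_smul, add_zero] at h2
    exact h2
  refine alg6 (Q x) (c x) (fderiv ℝ Q x κ) κ (eMap Q c x)
    (fun a X => fderiv ℝ (eMap Q c) x κ a X) ?_ (hs x hx) (hC x hx κ)
    (fun a X => defect (Q x) (c x) (eMap Q c x) (fderiv ℝ (eMap Q c) x) κ a X)
    (fun η X => rfl) (sym4_eMap hU hQ hc hs hC hx) ?_ θ ξ η ζ
  · intro a b X
    rw [map_add]; rfl
  · intro θ ξ η ζ
    refine (main θ ξ η ζ).unique ((main ξ θ η ζ).congr_of_eventuallyEq ?_)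
    filter_upwards [line_mem hU hx κ] with t ht
    exact sym4_eMap hU hQ hc hs hC ht θ ξ η ζ

end Pool.Agent.KP.BI
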