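import Pool.Agent.Lib_helper69.KP.Defs2
import Pool.Agent.Lib_helper15.KP.I3

/-! Block I of MP_3b4c52_gt: the closed system. -/

open scoped Manifold ContDiff InnerProductSpace Quaternion Topology Matrix
open Metric Set

set_option maxSynthPendingDepth 3

noncomputable section

namespace Pool.Agent.KP.BI

variable {d : ℕ}

theorem exists_isSys_of
    (H1 : ∀ (Q : T d → (T d →L[ℝ] T d →L[ℝ] N d)) (x0 : T d),
      (∀ᶠ x in 𝓝 x0, Std (Q x)) → DifferentiableAt ℝ Q x0 →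
      (∀ x y z, fderiv ℝ Q x0 x y z = fderiv ℝ Q x0 y x z) →
      (∀ x y z, fderiv ℝ Q x0 x y z = fderiv ℝ Q x0 x z y) →
      ∃ c : N d →L[ℝ] T d, ∀ x y z, fderiv ℝ Q x0 x y z = Tri (Q x0) c x y z)
    (H2 : ∀ (Q : T d →L[ℝ] T d →L[ℝ] N d), Std Q → ∀ c : N d →L[ℝ] T d,
      (∀ x, Q x (c (Q x x)) = 0) → c = 0)
    (H3 : ∀ (Q : T d →L[ℝ] T d →L[ℝ] N d), Std Q →
      ∀ e : T d →L[ℝ] T d →L[ℝ] N d →L[ℝ] T d,
      (∀ ζ, Sym4 Q (e ζ)) → (∀ ζ η X, e ζ η X = e η ζ X) → e = 0)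
    (F : T d → N d) (Ω : Set (T d)) (hΩ : IsOpen Ω)
    (h0 : (0 : T d) ∈ Ω) (hF : ContDiffOn ℝ ∞ F Ω) (hS : ∀ x ∈ Ω, Std (D2 F x)) :
    ∃ r > 0, ∃ c e, IsSys F c e r := by
  classical
  have hFx : ∀ x ∈ Ω, ContDiffAt ℝ ∞ F x := fun x hx => hF.contDiffAt (hΩ.mem_nhds hx)
  have hF1 : ∀ x ∈ Ω, ContDiffAt ℝ ∞ (fderiv ℝ F) x := fun x hx =>
    (hFx x hx).fderiv_right (m := ∞) (by simp)
  have hF2 : ∀ x ∈ Ω, ContDiffAt ℝ ∞ (D2 F) x := fun x hx =>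
    (hF1 x hx).fderiv_right (m := ∞) (by simp)
  have hs : ∀ x ∈ Ω, ∀ ξ η, D2 F x ξ η = D2 F x η ξ := fun x hx ξ η => sym_second (hFx x hx) ξ η
  have h12 : ∀ x ∈ Ω, ∀ ζ ξ η, fderiv ℝ (D2 F) x ζ ξ η = fderiv ℝ (D2 F) x ξ ζ η := by
    intro x hx ζ ξ η
    have := sym_second (hF1 x hx) ζ ξ
    exact congrArg (fun A : T d →L[ℝ] N d => A η) this
  have h23 : ∀ x ∈ Ω, ∀ ζ ξ η, fderiv ℝ (D2 F) x ζ ξ η = fderiv ℝ (D2 F) x ζ η ξ := by
    intro x hx ζ ξ η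
    have hd : DifferentiableAt ℝ (D2 F) x := (hF2 x hx).differentiableAt (by simp)
    have hl : ∀ ξ η, HasDerivAt (fun t : ℝ => D2 F (x + t • ζ) ξ η)
        (fderiv ℝ (D2 F) x ζ ξ η) 0 := by
      intro ξ η
      simpa using ((line_deriv hd ζ).clm_apply (hasDerivAt_const 0 ξ)).clm_apply
        (hasDerivAt_const 0 η)
    refine (hl ξ η).unique ((hl η ξ).congr_of_eventuallyEq ?_)
    filter_upwards [line_mem hΩ hx ζ] with t ht
    exact hs _ ht ξ η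
  have hex : ∀ x ∈ Ω, ∃ c : N d →L[ℝ] T d, ∀ ζ ξ η,
      fderiv ℝ (D2 F) x ζ ξ η = Tri (D2 F x) c ζ ξ η := by
    intro x hx
    refine H1 (D2 F) x ?_ ((hF2 x hx).differentiableAt (by simp)) (h12 x hx) (h23 x hx)
    filter_upwards [hΩ.mem_nhds hx] with y hy
    exact hS y hy
  let c : T d → (N d →L[ℝ] T d) := fun x => if h : x ∈ Ω then (hex x h).choose else 0
  have hc : ∀ x ∈ Ω, ∀ ζ ξ η, fderiv ℝ (D2 F) x ζ ξ η = Tri (D2 F x) (c x) ζ ξ η := by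
    intro x hx
    have : c x = (hex x hx).choose := by simp only [c, dif_pos hx]
    rw [this]
    exact (hex x hx).choose_spec
  have hcs : ContDiffOn ℝ ∞ c Ω := by
    intro x hx
    refine ContDiffAt.contDiffWithinAt ?_
    refine contDiffAt_c (D2 F) x (hF2 x hx) c (H2 _ (hS x hx)) ?_
    filter_upwards [hΩ.mem_nhds hx] with y hy ξ
    rw [hc y hy]
    unfold Tri
    module
  have hC : ∀ x ∈ Ω, ∀ ζ ξ η, fderiv ℝ (D2 F) x ζ ξ η =
      D2 F x ζ (c x (D2 F x ξ η)) + D2 F x ξ (c x (D2 F x η ζ)) +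
        D2 F x η (c x (D2 F x ζ ξ)) := fun x hx ζ ξ η => hc x hx ζ ξ η
  have hQs : ContDiffOn ℝ ∞ (D2 F) Ω := fun x hx => (hF2 x hx).contDiffWithinAt
  have hdef : ∀ x ∈ Ω, defect (D2 F x) (c x) (eMap (D2 F) c x)
      (fderiv ℝ (eMap (D2 F) c) x) = 0 := by
    intro x hx
    refine H3 _ (hS x hx) _ ?_ ?_
    · intro κ θ ξ η ζ
      exact defect_sym4 hΩ hQs hcs hs hC hx κ θ ξ η ζ
    · intro ζ η X
      exact defect_symm hΩ hQs hcs hs hC hx ζ η X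
  obtain ⟨r, hr, hball⟩ := Metric.isOpen_iff.1 hΩ 0 h0
  refine ⟨r, hr, c, eMap (D2 F) c, ?_⟩
  refine ⟨fun x hx => (hFx x (hball hx)).differentiableAt (by simp),
    fun x hx => (hF1 x (hball hx)).differentiableAt (by simp),
    fun x hx => (hF2 x (hball hx)).differentiableAt (by simp),
    fun x hx => hs x (hball hx),
    fun x hx => (hcs.contDiffAt (hΩ.mem_nhds (hball hx))).differentiableAt (by simp),
    fun x hx => (contDiffAt_eMap (hF2 x (hball hx))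
      (hcs.contDiffAt (hΩ.mem_nhds (hball hx)))).differentiableAt (by simp),
    fun x hx => hc x (hball hx), ?_, ?_, ?_⟩
  · intro x hx ζ X
    rw [eMap_apply]
    abel
  · intro x hx ζ η X
    have h1 := congrArg (fun A : T d →L[ℝ] T d →L[ℝ] N d →L[ℝ] T d => A ζ η X)
      (hdef x (hball hx))
    have h2 : fderiv ℝ (eMap (D2 F) c) x ζ η X + c x (D2 F x (eMap (D2 F) c x η X) ζ)
        - eMap (D2 F) c x (c x (D2 F x η ζ)) X + eMap (D2 F) c x η (D2 F x ζ (c x X)) = 0 := h1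
    rw [← sub_eq_zero, ← h2]
    abel
  · intro x hx θ ξ η ζ
    exact sym4_eMap hΩ hQs hcs hs hC (hball hx) θ ξ η ζ

end Pool.Agent.KP.BI
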