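import Mathlib

/-! Block I of MP_3b4c52_gt, part 1: smoothness of the third order data `c` (generic spaces). -/

open scoped ContDiff Topology
open Metric Set

set_option maxSynthPendingDepth 3

noncomputable section

namespace Pool.Agent.KP.BI

theorem exists_finset_ker {V W ι : Type*} [AddCommGroup V] [Module ℝ V] [FiniteDimensional ℝ V]
    [AddCommGroup W] [Module ℝ W] (L : ι → V →ₗ[ℝ] W) (h : ∀ v, (∀ i, L i v = 0) → v = 0) :
    ∃ s : Finset ι, ∀ v, (∀ i ∈ s, L i v = 0) → v = 0 := by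
  classical
  let K : Finset ι → Submodule ℝ V := fun s => ⨅ i ∈ s, LinearMap.ker (L i)
  have hK : ∀ s v, v ∈ K s ↔ ∀ i ∈ s, L i v = 0 := by
    intro s v
    simp [K, Submodule.mem_iInf]
  let P : ℕ → Prop := fun n => ∃ s : Finset ι, Module.finrank ℝ (K s) = n
  have hP : ∃ n, P n := ⟨_, ∅, rfl⟩
  obtain ⟨s, hs⟩ := Nat.find_spec hP
  refine ⟨s, fun v hv => ?_⟩
  by_contra hne
  have : ∃ i, L i v ≠ 0 := by
    by_contra hcon
    push Not at hcon
    exact hne (h v hcon)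
  obtain ⟨i, hi⟩ := this
  have hlt : K (insert i s) < K s := by
    refine lt_of_le_of_ne ?_ ?_
    · intro w hw
      rw [hK] at hw ⊢
      exact fun j hj => hw j (Finset.mem_insert_of_mem hj)
    · intro heq
      have hvs : v ∈ K s := (hK s v).2 hv
      rw [← heq, hK] at hvs
      exact hi (hvs i (Finset.mem_insert_self i s))
  have hfr := Submodule.finrank_lt_finrank_of_lt hlt
  have hmin := Nat.find_min' hP ⟨insert i s, rfl⟩
  omega

variable {T N : Type*} [NormedAddCommGroup T] [NormedSpace ℝ T] [FiniteDimensional ℝ T]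
  [NormedAddCommGroup N] [NormedSpace ℝ N] [FiniteDimensional ℝ N]

theorem contDiffAt_c (Q : T → (T →L[ℝ] T →L[ℝ] N)) (x0 : T)
    (hQ : ContDiffAt ℝ ∞ Q x0)
    (c : T → (N →L[ℝ] T))
    (hu : ∀ c' : N →L[ℝ] T, (∀ x, Q x0 x (c' (Q x0 x x)) = 0) → c' = 0)
    (hc : ∀ᶠ y in 𝓝 x0, ∀ x, fderiv ℝ Q y x x x = (3 : ℝ) • Q y x (c y (Q y x x))) :
    ContDiffAt ℝ ∞ c x0 := by
  classical
  have : CompleteSpace T := FiniteDimensional.complete ℝ T
  have hfin : FiniteDimensional ℝ (N →L[ℝ] T) := inferInstance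
  have : CompleteSpace (N →L[ℝ] T) := FiniteDimensional.complete ℝ _
  let L : T → T → ((N →L[ℝ] T) →L[ℝ] N) := fun y k =>
    (Q y k).comp (ContinuousLinearMap.apply ℝ T (Q y k k))
  have hL : ∀ y k c', L y k c' = Q y k (c' (Q y k k)) := fun y k c' => rfl
  obtain ⟨s, hs⟩ := exists_finset_ker (fun k => (L x0 k : (N →L[ℝ] T) →ₗ[ℝ] N))
    (fun c' h => hu c' (fun x => h x))
  let LL : (N →L[ℝ] T) →ₗ[ℝ] (s → N) :=
    LinearMap.pi (fun k : s => (L x0 (k : T) : (N →L[ℝ] T) →ₗ[ℝ] N))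
  have hLL : LinearMap.ker LL = ⊥ := by
    rw [LinearMap.ker_eq_bot']
    intro c' hc'
    apply hs
    intro i hi
    have := congrFun hc' ⟨i, hi⟩
    simpa [LL] using this
  obtain ⟨ℓ, hℓ⟩ := LinearMap.exists_leftInverse_of_injective LL hLL
  let ℓk : s → (N →L[ℝ] (N →L[ℝ] T)) := fun k =>
    LinearMap.toContinuousLinearMap (ℓ ∘ₗ LinearMap.single ℝ (fun _ : s => N) k)
  have hℓsum : ∀ w : s → N, ℓ w = ∑ k, ℓk k (w k) := by
    intro w
    have : w = ∑ k, LinearMap.single ℝ (fun _ : s => N) k (w k) := by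
      ext1 j
      simp [Finset.sum_apply, Pi.single_apply]
    conv_lhs => rw [this]
    rw [map_sum]
    rfl
  let Φ : T → ((N →L[ℝ] T) →L[ℝ] (N →L[ℝ] T)) := fun y =>
    ∑ k : s, (ℓk k).comp (L y k)
  let r : T → (N →L[ℝ] T) := fun y =>
    ∑ k : s, ℓk k ((1 / 3 : ℝ) • fderiv ℝ Q y (k : T) (k : T) (k : T))
  have hΦ0 : Φ x0 = 1 := by
    ext1 c'
    have h1 : ℓ (LL c') = c' := by
      have := LinearMap.congr_fun hℓ c'
      simpa using this
    rw [hℓsum] at h1
    simp only [Φ, sum_apply, ContinuousLinearMap.comp_apply]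
    exact h1
  have hQd : ContDiffAt ℝ ∞ (fderiv ℝ Q) x0 := hQ.fderiv_right (m := ∞) (by simp)
  have hLs : ∀ k, ContDiffAt ℝ ∞ (fun y => L y k) x0 := by
    intro k
    have h1 : ContDiffAt ℝ ∞ (fun y => Q y k) x0 := hQ.clm_apply contDiffAt_const
    have h2 : ContDiffAt ℝ ∞ (fun y => Q y k k) x0 := h1.clm_apply contDiffAt_const
    have h3 : ContDiffAt ℝ ∞ (fun y => ContinuousLinearMap.apply ℝ T (Q y k k)) x0 :=
      (ContinuousLinearMap.contDiff (ContinuousLinearMap.apply ℝ T (E := N))).contDiffAt.comp x0 h2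
    exact h1.clm_comp h3
  have hΦs : ContDiffAt ℝ ∞ Φ x0 := by
    refine ContDiffAt.sum fun k _ => ?_
    exact contDiffAt_const.clm_comp (hLs k)
  have hrs : ContDiffAt ℝ ∞ r x0 := by
    refine ContDiffAt.sum fun k _ => ?_
    refine contDiffAt_const.clm_apply ?_
    have h3 : ContDiffAt ℝ ∞ (fun y => fderiv ℝ Q y (k : T) (k : T) (k : T)) x0 :=
      ((hQd.clm_apply contDiffAt_const).clm_apply contDiffAt_const).clm_apply contDiffAt_const
    exact h3.const_smul _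
  have hinv : ContDiffAt ℝ ∞ (fun y => Ring.inverse (Φ y)) x0 := by
    have h1 : ContDiffAt ℝ ∞ Ring.inverse (Φ x0) := by
      rw [hΦ0]
      exact contDiffAt_ringInverse (R := ((N →L[ℝ] T) →L[ℝ] (N →L[ℝ] T))) ℝ 1
    exact h1.comp x0 hΦs
  have hfinal : ContDiffAt ℝ ∞ (fun y => Ring.inverse (Φ y) (r y)) x0 := hinv.clm_apply hrs
  refine hfinal.congr_of_eventuallyEq ?_
  have hunit : ∀ᶠ y in 𝓝 x0, IsUnit (Φ y) := by
    have : {A | IsUnit A} ∈ 𝓝 (Φ x0) := by
      rw [hΦ0]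
      exact Units.isOpen.mem_nhds isUnit_one
    exact hΦs.continuousAt.eventually this
  filter_upwards [hunit, hc] with y hy hcy
  have h1 : Φ y (c y) = r y := by
    simp only [Φ, r, sum_apply, ContinuousLinearMap.comp_apply]
    refine Finset.sum_congr rfl fun k _ => ?_
    rw [hcy, hL, smul_smul]
    norm_num
  rw [← h1, ← mul_apply_eq_comp, Ring.inverse_mul_cancel _ hy]
  rfl

end Pool.Agent.KP.BI
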