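import Pool.Agent.Lib_helper15.KP.I1

/-! Block I of MP_3b4c52_gt, part 2: the algebra of the closed system (generic spaces). -/

open scoped ContDiff Topology
open Metric Set

set_option maxSynthPendingDepth 3
set_option linter.unusedSimpArgs false
set_option linter.unusedVariables false

noncomputable section

namespace Pool.Agent.KP.BI

variable {T N : Type*} [NormedAddCommGroup T] [NormedSpace ℝ T]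
  [NormedAddCommGroup N] [NormedSpace ℝ N]

/-- cyclic sum -/
def S4 (Q : T →L[ℝ] T →L[ℝ] N) (e : T → N → T) (θ ξ η ζ : T) : N :=
  Q ξ (e θ (Q η ζ)) + Q η (e θ (Q ζ ξ)) + Q ζ (e θ (Q ξ η))

/-- one term of the derivative of the third order identity -/
def A3 (Q : T →L[ℝ] T →L[ℝ] N) (c : N →L[ℝ] T) (q' : T →L[ℝ] T →L[ℝ] N) (c' : N →L[ℝ] T)
    (ξ η ζ : T) : N :=
  q' ξ (c (Q η ζ)) + Q ξ (c' (Q η ζ) + c (q' η ζ))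

theorem alg4 (Q : T →L[ℝ] T →L[ℝ] N) (c : N →L[ℝ] T) (q' : T → (T →L[ℝ] T →L[ℝ] N))
    (c' : T → (N →L[ℝ] T)) (e : T → N → T) (hs : ∀ a b, Q a b = Q b a)
    (hq : ∀ θ a b, q' θ a b = Q θ (c (Q a b)) + Q a (c (Q b θ)) + Q b (c (Q θ a)))
    (he : ∀ θ X, e θ X = c' θ X + c (Q θ (c X)))
    (hD : ∀ θ ξ η ζ, A3 Q c (q' θ) (c' θ) ξ η ζ + A3 Q c (q' θ) (c' θ) η ζ ξ
        + A3 Q c (q' θ) (c' θ) ζ ξ η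
      = A3 Q c (q' ξ) (c' ξ) θ η ζ + A3 Q c (q' ξ) (c' ξ) η ζ θ
        + A3 Q c (q' ξ) (c' ξ) ζ θ η) (θ ξ η ζ : T) :
    S4 Q e θ ξ η ζ = S4 Q e ξ θ η ζ := by
  have h := hD θ ξ η ζ
  unfold A3 at h
  unfold S4
  simp only [hq, he, map_add] at h ⊢
  simp only [hs ξ θ, hs η θ, hs ζ θ, hs η ξ, hs ζ ξ,
    hs (c (Q ξ η)) θ, hs (c (Q ξ ζ)) θ, hs (c (Q η ζ)) θ,
    hs (c (Q θ η)) ξ, hs (c (Q θ ζ)) ξ, hs (c (Q η ζ)) ξ,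
    hs (c (Q η ζ)) (c (Q θ ξ)), hs (c (Q ξ ζ)) (c (Q θ η)), hs (c (Q ξ η)) (c (Q θ ζ))] at h ⊢
  have h2 := sub_eq_zero.2 h
  rw [← sub_eq_zero]
  rw [← h2]
  abel

/-- the symmetry of the fourth order defect -/
theorem alg5 (Q : T →L[ℝ] T →L[ℝ] N) (c : N →L[ℝ] T) (q' : T → (T →L[ℝ] T →L[ℝ] N))
    (c' : T → (N →L[ℝ] T)) (e : T → N →L[ℝ] T) (e' : T → T → N → T)
    (hs : ∀ a b, Q a b = Q b a)
    (hq : ∀ θ a b, q' θ a b = Q θ (c (Q a b)) + Q a (c (Q b θ)) + Q b (c (Q θ a)))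
    (he : ∀ θ X, e θ X = c' θ X + c (Q θ (c X)))
    (E : T → T → N → T)
    (hE : ∀ ζ η X, E ζ η X = e' ζ η X + c (Q (e η X) ζ) - e (c (Q η ζ)) X + e η (Q ζ (c X)))
    (ζ η : T) (X : N)
    (hD : e' ζ η X - (c' ζ (Q η (c X)) + c (q' ζ η (c X) + Q η (c' ζ X)))
      = e' η ζ X - (c' η (Q ζ (c X)) + c (q' η ζ (c X) + Q ζ (c' η X)))) :
    E ζ η X = E η ζ X := by
  rw [hE, hE]
  simp only [hs (e η X) ζ, hs (e ζ X) η]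
  simp only [hq, he, map_add] at hD ⊢
  simp only [hs η ζ, hs (c X) ζ, hs (c X) η, hs (c' η X) ζ, hs (c' ζ X) η,
    hs (c (Q η (c X))) ζ, hs (c (Q ζ (c X))) η] at hD ⊢
  have h2 := sub_eq_zero.2 hD
  rw [← sub_eq_zero]
  rw [← h2]
  abel

theorem alg6 (Q : T →L[ℝ] T →L[ℝ] N) (c : N →L[ℝ] T) (q' : T →L[ℝ] T →L[ℝ] N) (κ : T)
    (e : T → N →L[ℝ] T) (e' : T → N → T)
    (hadd : ∀ a b X, e (a + b) X = e a X + e b X)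
    (hs : ∀ a b, Q a b = Q b a)
    (hq : ∀ a b, q' a b = Q κ (c (Q a b)) + Q a (c (Q b κ)) + Q b (c (Q κ a)))
    (E : T → N → T)
    (hE : ∀ η X, E η X = e' η X + c (Q (e η X) κ) - e (c (Q η κ)) X + e η (Q κ (c X)))
    (hS : ∀ θ ξ η ζ, S4 Q (fun a => e a) θ ξ η ζ = S4 Q (fun a => e a) ξ θ η ζ)
    (hD : ∀ θ ξ η ζ,
      (q' ξ (e θ (Q η ζ)) + Q ξ (e' θ (Q η ζ) + e θ (q' η ζ))) +
      (q' η (e θ (Q ζ ξ)) + Q η (e' θ (Q ζ ξ) + e θ (q' ζ ξ))) +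
      (q' ζ (e θ (Q ξ η)) + Q ζ (e' θ (Q ξ η) + e θ (q' ξ η))) =
      (q' θ (e ξ (Q η ζ)) + Q θ (e' ξ (Q η ζ) + e ξ (q' η ζ))) +
      (q' η (e ξ (Q ζ θ)) + Q η (e' ξ (Q ζ θ) + e ξ (q' ζ θ))) +
      (q' ζ (e ξ (Q θ η)) + Q ζ (e' ξ (Q θ η) + e ξ (q' θ η)))) (θ ξ η ζ : T) :
    S4 Q E θ ξ η ζ = S4 Q E ξ θ η ζ := by
  have key : ∀ θ ξ η ζ, S4 Q E θ ξ η ζ =
      ((q' ξ (e θ (Q η ζ)) + Q ξ (e' θ (Q η ζ) + e θ (q' η ζ))) +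
      (q' η (e θ (Q ζ ξ)) + Q η (e' θ (Q ζ ξ) + e θ (q' ζ ξ))) +
      (q' ζ (e θ (Q ξ η)) + Q ζ (e' θ (Q ξ η) + e θ (q' ξ η))))
      - Q κ (c (S4 Q (fun a => e a) θ ξ η ζ))
      - (S4 Q (fun a => e a) (c (Q κ θ)) ξ η ζ + S4 Q (fun a => e a) θ (c (Q κ ξ)) η ζ)
      - S4 Q (fun a => e a) θ ξ (c (Q κ η)) ζ
      - S4 Q (fun a => e a) θ ξ η (c (Q κ ζ)) := by
    intro θ ξ η ζ
    unfold S4
    simp only [hq, hE, map_add, map_sub]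
    simp only [hs θ κ, hs ξ κ, hs η κ, hs ζ κ, hs ζ ξ, hs ζ η, hs η ξ,
      hs (c (Q κ ξ)) η, hs (c (Q κ ξ)) ζ, hs (c (Q κ η)) ξ, hs (c (Q κ η)) ζ,
      hs (c (Q κ ζ)) ξ, hs (c (Q κ ζ)) η,
      hs (e θ (Q η ζ)) κ, hs (e θ (Q ξ ζ)) κ, hs (e θ (Q ξ η)) κ,
      hs (e θ (Q η ζ)) (c (Q κ ξ)), hs (e θ (Q ξ ζ)) (c (Q κ η)), hs (e θ (Q ξ η)) (c (Q κ ζ))]
    abel
  rw [key, key, hD θ ξ η ζ, hS θ ξ η ζ, hS θ ξ (c (Q κ η)) ζ, hS θ ξ η (c (Q κ ζ)),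
    hS (c (Q κ θ)) ξ η ζ, hS θ (c (Q κ ξ)) η ζ]
  abel

end Pool.Agent.KP.BI
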